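import Pool.Agent.J6H96.CF.Stm

/-!
# Module CF-SHIFT: shift invariance of binomial laws
-/

set_option autoImplicit false

namespace Pool.Agent.J6H49.CF

open Finset Pool.Agent.J6H96.CF

theorem sum_sq (T : Finset ℕ) :
    ∑ A ∈ T.powerset, (2 * (A.card : ℝ) - (T.card : ℝ)) ^ 2 = (T.card : ℝ) * (2 : ℝ) ^ T.card := by
  induction T using Finset.induction_on with
  | empty => simp
  | insert a T ha ih =>
    rw [sum_powerset_insert ha, card_insert_of_notMem ha]
    have h1 : ∀ A ∈ T.powerset, (2 * (((insert a A).card : ℕ) : ℝ) - ((T.card + 1 : ℕ) : ℝ)) ^ 2 =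
        (2 * (A.card : ℝ) - (T.card : ℝ) + 1) ^ 2 := by
      intro A hA
      rw [card_insert_of_notMem fun h => ha (mem_powerset.1 hA h)]
      push_cast
      ring
    rw [sum_congr rfl h1, ← sum_add_distrib]
    have h2 : ∀ A ∈ T.powerset, (2 * (A.card : ℝ) - ((T.card + 1 : ℕ) : ℝ)) ^ 2 +
        (2 * (A.card : ℝ) - (T.card : ℝ) + 1) ^ 2 =
          2 * (2 * (A.card : ℝ) - (T.card : ℝ)) ^ 2 + 2 := by
      intro A _
      push_cast
      ring
    rw [sum_congr rfl h2, sum_add_distrib, ← mul_sum, ih, sum_const, card_powerset]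
    simp only [nsmul_eq_mul]
    push_cast
    ring

theorem sum_abs (N : ℕ) :
    ∑ A ∈ (range N).powerset, |2 * (A.card : ℝ) - (N : ℝ)| ≤ 2 ^ N * √(N : ℝ) := by
  have h1 := sq_sum_le_card_mul_sum_sq (s := (range N).powerset)
    (f := fun A => |2 * (A.card : ℝ) - (N : ℝ)|)
  have h2 : ∑ A ∈ (range N).powerset, |2 * (A.card : ℝ) - (N : ℝ)| ^ 2 =
      (N : ℝ) * (2 : ℝ) ^ N := by
    have h3 := sum_sq (range N)
    rw [card_range] at h3
    rw [← h3]
    exact sum_congr rfl fun A _ => sq_abs _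
  rw [h2, card_powerset, card_range] at h1
  refine le_of_sq_le_sq ?_ (by positivity)
  refine h1.trans (le_of_eq ?_)
  rw [mul_pow, Real.sq_sqrt (Nat.cast_nonneg N)]
  push_cast
  ring

theorem shift_eq (n : ℕ) (h : ℕ → ℝ) :
    ((n : ℝ) + 1) * ∑ j ∈ range (n + 1), (n.choose j : ℝ) * (h (j + 1) - h j) =
      ∑ j ∈ range (n + 2), ((n + 1).choose j : ℝ) * (h j * (2 * (j : ℝ) - ((n + 1 : ℕ) : ℝ))) := by
  have e1 : ((n : ℝ) + 1) * ∑ j ∈ range (n + 1), (n.choose j : ℝ) * h (j + 1) =
      ∑ j ∈ range (n + 2), ((n + 1).choose j : ℝ) * (h j * (j : ℝ)) := by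
    rw [sum_range_succ' _ (n + 1), Nat.cast_zero, mul_zero, mul_zero, add_zero, mul_sum]
    refine sum_congr rfl fun j _ => ?_
    have h1 : ((n + 1 : ℕ) : ℝ) * (n.choose j : ℝ) = ((n + 1).choose (j + 1) : ℝ) * ((j + 1 : ℕ) : ℝ) := by
      exact_mod_cast Nat.add_one_mul_choose_eq n j
    push_cast at h1 ⊢
    linear_combination (h (j + 1)) * h1
  have e2 : ((n : ℝ) + 1) * ∑ j ∈ range (n + 1), (n.choose j : ℝ) * h j =
      ∑ j ∈ range (n + 2), ((n + 1).choose j : ℝ) * (h j * (((n + 1 : ℕ) : ℝ) - (j : ℝ))) := by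
    rw [sum_range_succ _ (n + 1), sub_self, mul_zero, mul_zero, add_zero, mul_sum]
    refine sum_congr rfl fun j hj => ?_
    have hj' : j ≤ n + 1 := (mem_range.1 hj).le
    have h1 : (n.choose j : ℝ) * ((n + 1 : ℕ) : ℝ) =
        ((n + 1).choose j : ℝ) * (((n + 1 : ℕ) : ℝ) - (j : ℝ)) := by
      rw [← Nat.cast_sub hj']
      exact_mod_cast Nat.choose_mul_succ_eq n j
    push_cast at h1 ⊢
    linear_combination (h j) * h1
  have e3 : ∑ j ∈ range (n + 1), (n.choose j : ℝ) * (h (j + 1) - h j) =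
      ∑ j ∈ range (n + 1), (n.choose j : ℝ) * h (j + 1) -
        ∑ j ∈ range (n + 1), (n.choose j : ℝ) * h j := by
    rw [← sum_sub_distrib]
    exact sum_congr rfl fun j _ => mul_sub _ _ _
  rw [e3, mul_sub, e1, e2, ← sum_sub_distrib]
  refine sum_congr rfl fun j _ => ?_
  ring

theorem shift_le (n : ℕ) (h : ℕ → ℝ) (hh : ∀ j, 0 ≤ h j ∧ h j ≤ 1) :
    |∑ j ∈ range (n + 1), (n.choose j : ℝ) * (h (j + 1) - h j)| ≤
      2 ^ n * (2 / √((n : ℝ) + 1)) := by
  have h1 := shift_eq n h
  have h2 : |∑ j ∈ range (n + 2), ((n + 1).choose j : ℝ) *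
      (h j * (2 * (j : ℝ) - ((n + 1 : ℕ) : ℝ)))| ≤ 2 ^ (n + 1) * √((n + 1 : ℕ) : ℝ) := by
    refine le_trans ?_ (sum_abs (n + 1))
    have h3 := sum_powerset_apply_card (x := range (n + 1))
      (fun j => |2 * (j : ℝ) - ((n + 1 : ℕ) : ℝ)|)
    rw [card_range] at h3
    rw [h3]
    refine (abs_sum_le_sum_abs _ _).trans (sum_le_sum fun j _ => ?_)
    rw [nsmul_eq_mul, abs_mul, abs_mul, Nat.abs_cast]
    refine mul_le_mul_of_nonneg_left ?_ (Nat.cast_nonneg _)
    rw [abs_of_nonneg (hh j).1]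
    exact mul_le_of_le_one_left (abs_nonneg _) (hh j).2
  rw [← h1, abs_mul] at h2
  have hn : (0 : ℝ) < (n : ℝ) + 1 := by positivity
  rw [abs_of_pos hn] at h2
  push_cast at h2
  have hs : (0 : ℝ) < √((n : ℝ) + 1) := Real.sqrt_pos.2 hn
  have h4 : (n : ℝ) + 1 = √((n : ℝ) + 1) * √((n : ℝ) + 1) := (Real.mul_self_sqrt hn.le).symm
  have h5 : |∑ j ∈ range (n + 1), (n.choose j : ℝ) * (h (j + 1) - h j)| * √((n : ℝ) + 1) ≤
      2 ^ (n + 1) := by
    have h6 : √((n : ℝ) + 1) * (|∑ j ∈ range (n + 1), (n.choose j : ℝ) * (h (j + 1) - h j)| *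
        √((n : ℝ) + 1)) ≤ √((n : ℝ) + 1) * 2 ^ (n + 1) := by
      calc _ = (√((n : ℝ) + 1) * √((n : ℝ) + 1)) *
            |∑ j ∈ range (n + 1), (n.choose j : ℝ) * (h (j + 1) - h j)| := by ring
        _ = ((n : ℝ) + 1) * |∑ j ∈ range (n + 1), (n.choose j : ℝ) * (h (j + 1) - h j)| := by
            rw [← h4]
        _ ≤ _ := by
            rw [mul_comm (√((n : ℝ) + 1))]
            exact h2
    exact le_of_mul_le_mul_left h6 hs
  calc _ ≤ 2 ^ (n + 1) / √((n : ℝ) + 1) := (le_div_iff₀ hs).2 h5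
    _ = _ := by rw [pow_succ]; ring

theorem cnt_union {E : Type} [DecidableEq E] {r : ℕ} (χ : E → Fin r) (i : Fin r) (B C : Finset E)
    (hB : ∀ x ∈ B, χ x ≠ i) (hC : ∀ x ∈ C, χ x = i) :
    cnt χ (B ∪ C) = cnt χ B + Pi.single i C.card := by
  funext j
  rw [Pi.add_apply, cnt, cnt, filter_union, card_union_of_disjoint]
  · congr 1
    by_cases hj : j = i
    · subst hj
      rw [Pi.single_eq_same, filter_true_of_mem fun x hx => hC x hx]
    · rw [Pi.single_eq_of_ne hj, filter_false_of_mem, card_empty]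
      intro x hx h
      exact hj (h.symm.trans (hC x hx))
  · refine disjoint_left.2 fun x hx hx' => ?_
    exact hB x (mem_filter.1 hx).1 (hC x (mem_filter.1 hx').1)

theorem split {E : Type} [DecidableEq E] (U : Finset E) (P : E → Prop) [DecidablePred P]
    (F : Finset E → ℝ) : ∑ A ∈ U.powerset, F A =
      ∑ B ∈ (U.filter fun x => ¬ P x).powerset, ∑ C ∈ (U.filter P).powerset, F (B ∪ C) := by
  rw [← sum_product']
  refine sum_nbij' (fun A => (A.filter fun x => ¬ P x, A.filter P)) (fun p => p.1 ∪ p.2)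
    ?_ ?_ ?_ ?_ ?_
  · intro A hA
    rw [mem_powerset] at hA
    rw [mem_product, mem_powerset, mem_powerset]
    exact ⟨filter_subset_filter _ hA, filter_subset_filter _ hA⟩
  · intro p hp
    rw [mem_product, mem_powerset, mem_powerset] at hp
    rw [mem_powerset]
    exact union_subset (hp.1.trans (filter_subset _ _)) (hp.2.trans (filter_subset _ _))
  · intro A _
    ext x
    simp only [mem_union, mem_filter]
    tauto
  · intro p hp
    rw [mem_product, mem_powerset, mem_powerset] at hp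
    refine Prod.ext ?_ ?_
    · ext x
      simp only [mem_filter, mem_union]
      constructor
      · rintro ⟨h1 | h1, h2⟩
        · exact h1
        · exact absurd (mem_filter.1 (hp.2 h1)).2 h2
      · intro h1
        exact ⟨Or.inl h1, (mem_filter.1 (hp.1 h1)).2⟩
    · ext x
      simp only [mem_filter, mem_union]
      constructor
      · rintro ⟨h1 | h1, h2⟩
        · exact absurd h2 (mem_filter.1 (hp.1 h1)).2
        · exact h1
      · intro h1
        exact ⟨Or.inr h1, (mem_filter.1 (hp.2 h1)).2⟩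
  · intro A _
    congr 1
    ext x
    simp only [mem_union, mem_filter]
    tauto

theorem t_SHIFT : S_SHIFT := by
  intro E _ U r χ g hg v i
  rw [← sum_sub_distrib, split U (fun x => χ x = i)]
  set n := cnt χ U i with hn
  have hc : (U.filter fun x => χ x = i).card = n := rfl
  have key : ∀ B ∈ (U.filter fun x => ¬ χ x = i).powerset,
      |∑ C ∈ (U.filter fun x => χ x = i).powerset,
        (g (cnt χ (B ∪ C) + v + Pi.single i 1) - g (cnt χ (B ∪ C) + v))| ≤
      2 ^ n * (2 / √((n : ℝ) + 1)) := by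
    intro B hB
    rw [mem_powerset] at hB
    have h1 : ∀ C ∈ (U.filter fun x => χ x = i).powerset,
        g (cnt χ (B ∪ C) + v + Pi.single i 1) - g (cnt χ (B ∪ C) + v) =
        (fun j : ℕ => g (cnt χ B + v + Pi.single i (j + 1)) - g (cnt χ B + v + Pi.single i j))
          C.card := by
      intro C hC
      rw [mem_powerset] at hC
      rw [cnt_union χ i B C (fun x hx => (mem_filter.1 (hB hx)).2)
        fun x hx => (mem_filter.1 (hC hx)).2]
      have h2 : cnt χ B + Pi.single i C.card + v + Pi.single i 1 =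
          cnt χ B + v + Pi.single i (C.card + 1) := by
        rw [Pi.single_add]
        abel
      have h3 : cnt χ B + Pi.single i C.card + v = cnt χ B + v + Pi.single i C.card := by
        abel
      rw [h2, h3]
    have h4 := (sum_congr rfl h1).trans (sum_powerset_apply_card (x := U.filter fun x => χ x = i)
      (fun j : ℕ => g (cnt χ B + v + Pi.single i (j + 1)) - g (cnt χ B + v + Pi.single i j)))
    rw [h4, hc]
    simp only [nsmul_eq_mul]
    exact shift_le n (fun j => g (cnt χ B + v + Pi.single i j)) fun j => hg _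
  refine (abs_sum_le_sum_abs _ _).trans ((sum_le_sum key).trans (le_of_eq ?_))
  rw [sum_const, card_powerset, nsmul_eq_mul, ← mul_assoc]
  congr 1
  push_cast
  rw [← pow_add]
  congr 1
  rw [← hc, add_comm]
  exact card_filter_add_card_filter_not (s := U) fun x => χ x = i

end Pool.Agent.J6H49.CF
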